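import Mathlib
import Pool.Agent.H918R2.Quad.Defs
import Pool.Agent.H918R2.Quad.Reg2

set_option autoImplicit false

open MvPolynomial

namespace Pool.Agent.H825R2.QuadF

open Pool.Agent.H918R2.Quad

/-- a derivation maps the square of an ideal into the ideal -/
theorem deriv_sq {R W : Type} [CommRing R] [CommRing W] [Algebra R W] (D : Derivation R W W)
    (I : Ideal W) (x : W) (hx : x ∈ I ^ 2) : D x ∈ I := by
  rw [pow_two] at hx
  refine Submodule.mul_induction_on hx ?_ ?_
  · intro a ha b hb
    rw [Derivation.leibniz, smul_eq_mul, smul_eq_mul]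
    exact I.add_mem (I.mul_mem_right _ ha) (I.mul_mem_right _ hb)
  · intro a b ha hb
    rw [map_add]
    exact I.add_mem ha hb

theorem deriv_not_sq {R W : Type} [CommRing R] [CommRing W] [Algebra R W] (D : Derivation R W W)
    (I : Ideal W) [I.IsPrime] (E c : W) (hE : E ∈ I) (hD : D E ∉ I) (hc : c ∉ I) :
    c * E ∉ I ^ 2 := by
  intro h
  have h1 := deriv_sq D I _ h
  rw [Derivation.leibniz, smul_eq_mul, smul_eq_mul] at h1
  have h2 : c * D E ∈ I := by
    have h3 : E * D c ∈ I := I.mul_mem_right (D c) hE
    have := I.sub_mem h1 h3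
    simpa using this
  rcases (‹I.IsPrime›).mem_or_mem h2 with h | h
  · exact hc h
  · exact hD h

/-- TASK F0. Smooth points. -/
theorem regular_of_pderiv {R A σ : Type} [CommRing R] [IsRegularRing R] [Finite σ] [CommRing A]
    (E : MvPolynomial σ R) (pr : MvPolynomial σ R →+* A) (hpr : Function.Surjective pr)
    (hE : RingHom.ker pr = Ideal.span {E}) (q : Ideal A) [q.IsPrime]
    (j : σ) (hj : pr (pderiv j E) ∉ q) :
    IsRegularLocalRing (Localization.AtPrime q) := by
  classical
  have hEk : pr E = 0 := by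
    have : E ∈ RingHom.ker pr := by rw [hE]; exact Ideal.subset_span rfl
    exact this
  have hnr : IsRegularRing (MvPolynomial σ R) := inferInstance
  refine reg_crit_one (W := MvPolynomial σ R) (C := MvPolynomial σ R) pr hpr {E}
    (by simpa using hE) q (RingHom.id _) Function.surjective_id ?_ ∅ (by simp) ?_ E hEk ?_ ?_
  · intro x hx
    have : x = 0 := hx
    rw [this]; exact Ideal.zero_mem _
  · intro x hx
    have : x = 0 := hx
    refine ⟨1, ?_, ?_⟩
    · rw [map_one]
      exact fun h => (‹q.IsPrime›).ne_top ((Ideal.eq_top_iff_one q).2 h)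
    · rw [this, mul_zero, map_zero]; exact Ideal.zero_mem _
  · intro c hc
    rw [Ideal.map_id] at hc ⊢
    exact deriv_not_sq (pderiv (R := R) j) (q.comap pr) E c
      (by rw [Ideal.mem_comap, hEk]; exact q.zero_mem)
      (by rw [Ideal.mem_comap]; exact hj) hc
  · simp

/-! ### quadratic forms in the coordinates of a chart -/

section quad

variable {R ι : Type} [CommRing R] [Fintype ι] [DecidableEq ι] (s : ι)

/-- the quadratic form with coefficient matrix `M` -/
noncomputable def quad (M : ι → ι → R) : MvPolynomial {j : ι // j ≠ s} R :=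
  ∑ i, ∑ j, C (M i j) * tau s i * tau s j

/-- the formal partial derivatives -/
noncomputable def grd (M : ι → ι → R) (j : ι) : MvPolynomial {j : ι // j ≠ s} R :=
  ∑ i, C (M i j + M j i) * tau s i

omit [Fintype ι] in
theorem pderiv_tau (j : {j : ι // j ≠ s}) (i : ι) :
    pderiv j (tau (R := R) s i) = if i = j.1 then 1 else 0 := by
  unfold tau
  by_cases h : i = s
  · rw [dif_pos h]
    have : i ≠ j.1 := by rw [h]; exact fun h' => j.2 h'.symm
    simp [this]
  · rw [dif_neg h, pderiv_X]
    by_cases h2 : i = j.1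
    · subst h2
      simp
    · have : (⟨i, h⟩ : {j : ι // j ≠ s}) ≠ j := fun h' => h2 (by rw [← h'])
      simp [h2, this]

theorem pderiv_quad (M : ι → ι → R) (j : {j : ι // j ≠ s}) :
    pderiv j (quad s M) = grd s M j.1 := by
  unfold quad grd
  simp only [map_sum, Derivation.leibniz, pderiv_C, pderiv_tau, smul_eq_mul, add_zero,
    mul_ite, mul_one, mul_zero, Finset.sum_add_distrib, map_add, add_mul]
  congr 1
  · simp
  · rw [Finset.sum_comm]
    simp [mul_comm]

theorem euler (M : ι → ι → R) : ∑ j, tau s j * grd s M j = 2 * quad s M := by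
  unfold quad grd
  simp only [map_add, add_mul, Finset.sum_add_distrib, Finset.mul_sum, mul_add, two_mul]
  congr 1
  · rw [Finset.sum_comm]
    refine Finset.sum_congr rfl fun i _ => Finset.sum_congr rfl fun j _ => by ring
  · refine Finset.sum_congr rfl fun i _ => Finset.sum_congr rfl fun j _ => by ring

end quad


/-! ### killing variables and reducing modulo `π` -/

section kill

variable {R σ : Type} [CommRing R] [IsDomain R] [IsDiscreteValuationRing R] [DecidableEq σ]

/-- reduce modulo the maximal ideal and kill the variables in `T` -/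
noncomputable def theta (R : Type) [CommRing R] [IsDomain R] [IsDiscreteValuationRing R]
    (T : Finset σ) :
    MvPolynomial σ R →+* MvPolynomial {j : σ // j ∉ T} (IsLocalRing.ResidueField R) :=
  eval₂Hom (C.comp (IsLocalRing.residue R)) (fun j => if h : j ∈ T then 0 else X ⟨j, h⟩)

theorem theta_C (T : Finset σ) (r : R) : theta R T (C r) = C (IsLocalRing.residue R r) := by
  simp [theta]

theorem theta_X (T : Finset σ) (j : σ) :
    theta R T (X j) = if h : j ∈ T then 0 else X ⟨j, h⟩ := by
  simp [theta]

theorem theta_surj (T : Finset σ) : Function.Surjective (theta R T) := by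
  intro p
  induction p using MvPolynomial.induction_on with
  | C a =>
    obtain ⟨r, rfl⟩ := IsLocalRing.residue_surjective a
    exact ⟨C r, theta_C T r⟩
  | add p q hp hq =>
    obtain ⟨a, rfl⟩ := hp
    obtain ⟨b, rfl⟩ := hq
    exact ⟨a + b, map_add _ _ _⟩
  | mul_X p j hp =>
    obtain ⟨a, rfl⟩ := hp
    refine ⟨a * X j.1, ?_⟩
    rw [map_mul, theta_X, dif_neg j.2]

theorem ker_theta_le (T : Finset σ) (π : R) (hπ : Irreducible π) :
    RingHom.ker (theta R T) ≤
      Ideal.span (insert (C π) ((fun j => (X j : MvPolynomial σ R)) '' (T : Set σ))) := by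
  set J : Ideal (MvPolynomial σ R) :=
    Ideal.span (insert (C π) ((fun j => (X j : MvPolynomial σ R)) '' (T : Set σ))) with hJ
  have hπJ : C π ∈ J := Ideal.subset_span (Set.mem_insert _ _)
  have hφ : ∀ a ∈ IsLocalRing.maximalIdeal R, ((Ideal.Quotient.mk J).comp C) a = 0 := by
    intro a ha
    rw [hπ.maximalIdeal_eq, Ideal.mem_span_singleton] at ha
    obtain ⟨b, rfl⟩ := ha
    rw [RingHom.comp_apply, Ideal.Quotient.eq_zero_iff_mem, C_mul]
    exact J.mul_mem_right _ hπJ
  let φ : IsLocalRing.ResidueField R →+* (MvPolynomial σ R) ⧸ J :=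
    Ideal.Quotient.lift (IsLocalRing.maximalIdeal R) ((Ideal.Quotient.mk J).comp C) hφ
  let ψ : MvPolynomial {j : σ // j ∉ T} (IsLocalRing.ResidueField R) →+*
      (MvPolynomial σ R) ⧸ J :=
    eval₂Hom φ (fun j => Ideal.Quotient.mk J (X j.1))
  have hcomp : ψ.comp (theta R T) = Ideal.Quotient.mk J := by
    refine MvPolynomial.ringHom_ext ?_ ?_
    · intro r
      rw [RingHom.comp_apply, theta_C]
      show ψ (C _) = _
      simp only [ψ, eval₂Hom_C]
      rfl
    · intro j
      rw [RingHom.comp_apply, theta_X]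
      by_cases h : j ∈ T
      · rw [dif_pos h, map_zero]
        symm
        rw [Ideal.Quotient.eq_zero_iff_mem]
        exact Ideal.subset_span (Set.mem_insert_of_mem _ ⟨j, h, rfl⟩)
      · rw [dif_neg h]
        simp [ψ]
  intro x hx
  have hx0 : theta R T x = 0 := hx
  rw [← Ideal.Quotient.eq_zero_iff_mem, ← hcomp, RingHom.comp_apply, hx0, map_zero]

theorem le_height_ker_theta [Finite σ] (T : Finset σ) (π : R) (hπ : Irreducible π) :
    ((T.card + 1 : ℕ) : ℕ∞) ≤ (RingHom.ker (theta R T)).height := by
  induction T using Finset.induction_on with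
  | empty =>
    have h1 : (RingHom.ker (theta R (∅ : Finset σ))).IsPrime := RingHom.ker_isPrime _
    have h0 : (⊥ : Ideal (MvPolynomial σ R)).IsPrime := Ideal.isPrime_bot
    have hlt : (⊥ : Ideal (MvPolynomial σ R)) < RingHom.ker (theta R (∅ : Finset σ)) := by
      refine lt_of_le_of_ne bot_le ?_
      intro h
      have : C π ∈ RingHom.ker (theta R (∅ : Finset σ)) := by
        rw [RingHom.mem_ker, theta_C]
        have : IsLocalRing.residue R π = 0 := by
          rw [IsLocalRing.residue_eq_zero_iff, hπ.maximalIdeal_eq]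
          exact Ideal.mem_span_singleton_self π
        rw [this, map_zero]
      rw [← h] at this
      have h2 : (C π : MvPolynomial σ R) = 0 := this
      rw [C_eq_zero] at h2
      exact hπ.ne_zero h2
    have := Ideal.height_add_one_le_of_lt_of_isPrime hlt
    refine le_trans ?_ this
    simp
  | insert a T ha ih =>
    have h1 : (RingHom.ker (theta R (insert a T))).IsPrime := RingHom.ker_isPrime _
    have h0 : (RingHom.ker (theta R T)).IsPrime := RingHom.ker_isPrime _
    have hle : RingHom.ker (theta R T) ≤ RingHom.ker (theta R (insert a T)) := by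
      intro x hx
      have hx0 : theta R T x = 0 := hx
      let κ : MvPolynomial {j : σ // j ∉ T} (IsLocalRing.ResidueField R) →+*
          MvPolynomial {j : σ // j ∉ insert a T} (IsLocalRing.ResidueField R) :=
        eval₂Hom C (fun j => if h : j.1 ∈ insert a T then 0 else X ⟨j.1, h⟩)
      have hcomp : κ.comp (theta R T) = theta R (insert a T) := by
        refine MvPolynomial.ringHom_ext ?_ ?_
        · intro r
          rw [RingHom.comp_apply, theta_C, theta_C]
          simp [κ]
        · intro j
          rw [RingHom.comp_apply, theta_X, theta_X]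
          by_cases h : j ∈ T
          · rw [dif_pos h, dif_pos (Finset.mem_insert_of_mem h), map_zero]
          · rw [dif_neg h]
            simp [κ]
      rw [RingHom.mem_ker, ← hcomp, RingHom.comp_apply, hx0, map_zero]
    have hlt : RingHom.ker (theta R T) < RingHom.ker (theta R (insert a T)) := by
      refine lt_of_le_of_ne hle ?_
      intro h
      have : (X a : MvPolynomial σ R) ∈ RingHom.ker (theta R (insert a T)) := by
        rw [RingHom.mem_ker, theta_X, dif_pos (Finset.mem_insert_self _ _)]
      rw [← h, RingHom.mem_ker, theta_X, dif_neg ha] at this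
      exact X_ne_zero _ this
    have := Ideal.height_add_one_le_of_lt_of_isPrime hlt
    refine le_trans ?_ this
    rw [Finset.card_insert_of_notMem ha]
    push_cast
    gcongr
    exact_mod_cast ih

end kill

/-- TASK F1. Points of the quadric of a maximal lattice outside the bad locus. -/
theorem regular_T1 {R A : Type} [CommRing R] [IsDomain R] [IsDiscreteValuationRing R]
    [CommRing A] (π : R) (hπ : Irreducible π) {d m : ℕ}
    (c₁ : Fin d → Fin d → R) (c₂ : Fin d → Fin m → R) (c₀ : Fin m → Fin m → R)
    (hrad : Rad π c₀) (s : Fin d ⊕ Fin m)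
    (pr : MvPolynomial {j : Fin d ⊕ Fin m // j ≠ s} R →+* A) (hpr : Function.Surjective pr)
    (hE : RingHom.ker pr = Ideal.span
      {C π * (∑ i, ∑ j, C (c₁ i j) * tau s (Sum.inl i) * tau s (Sum.inl j)) +
        C π * (∑ i, ∑ j, C (c₂ i j) * tau s (Sum.inl i) * tau s (Sum.inr j)) +
        ∑ i, ∑ j, C (c₀ i j) * tau s (Sum.inr i) * tau s (Sum.inr j)})
    (q : Ideal A) [q.IsPrime] (hπq : pr (C π) ∈ q)
    (hout : (∃ i : Fin m, pr (tau s (Sum.inr i)) ∉ q) ∨
      pr (∑ i, ∑ j, C (c₁ i j) * tau s (Sum.inl i) * tau s (Sum.inl j)) ∉ q) :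
    IsRegularLocalRing (Localization.AtPrime q) := by
  classical
  set q1 : MvPolynomial {j : Fin d ⊕ Fin m // j ≠ s} R :=
    ∑ i, ∑ j, C (c₁ i j) * tau s (Sum.inl i) * tau s (Sum.inl j) with hq1
  set b2 : MvPolynomial {j : Fin d ⊕ Fin m // j ≠ s} R :=
    ∑ i, ∑ j, C (c₂ i j) * tau s (Sum.inl i) * tau s (Sum.inr j) with hb2
  set Q0 : MvPolynomial {j : Fin d ⊕ Fin m // j ≠ s} R :=
    ∑ i, ∑ j, C (c₀ i j) * tau s (Sum.inr i) * tau s (Sum.inr j) with hQ0
  let M : (Fin d ⊕ Fin m) → (Fin d ⊕ Fin m) → R := fun x y => match x, y with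
    | Sum.inl i, Sum.inl j => π * c₁ i j
    | Sum.inl i, Sum.inr j => π * c₂ i j
    | Sum.inr _, Sum.inl _ => 0
    | Sum.inr i, Sum.inr j => c₀ i j
  have hEq : C π * q1 + C π * b2 + Q0 = quad s M := by
    simp only [quad, Fintype.sum_sum_type, M, C_mul, map_zero, zero_mul, Finset.sum_const_zero,
      Finset.sum_add_distrib, hq1, hb2, hQ0, Finset.mul_sum, mul_assoc]
    ring
  have hE0 : pr (C π * q1 + C π * b2 + Q0) = 0 := by
    have : C π * q1 + C π * b2 + Q0 ∈ RingHom.ker pr := by
      rw [hE]; exact Ideal.subset_span rfl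
    exact this
  have hE1 : pr (quad s M) = 0 := by rw [← hEq]; exact hE0
  rw [hEq] at hE
  by_cases hA : ∃ j : {j // j ≠ s}, pr (grd s M j.1) ∉ q
  · obtain ⟨j, hj⟩ := hA
    exact regular_of_pderiv (quad s M) pr hpr hE q j (by rwa [pderiv_quad])
  push Not at hA
  have hs : pr (grd s M s) ∈ q := by
    have h1 := congrArg pr (euler s M)
    rw [map_mul, hE1, mul_zero, ← Finset.add_sum_erase _ _ (Finset.mem_univ s), map_add] at h1
    have h2 : tau (R := R) s s = 1 := by simp [tau]
    rw [h2, one_mul] at h1
    rw [eq_neg_of_add_eq_zero_left h1, map_sum]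
    refine q.neg_mem (q.sum_mem fun j hj => ?_)
    rw [map_mul]
    exact q.mul_mem_left _ (hA ⟨j, Finset.ne_of_mem_erase hj⟩)
  have hall : ∀ j, pr (grd s M j) ∈ q := by
    intro j
    by_cases h : j = s
    · rw [h]; exact hs
    · exact hA ⟨j, h⟩
  have hv : ∀ i : Fin m, pr (tau s (Sum.inr i)) ∈ q := by
    refine hrad A (pr.comp C) q hπq (fun i => pr (tau s (Sum.inr i))) ?_ ?_
    · have h1 : pr Q0 ∈ q := by
        rw [map_add] at hE0
        rw [eq_neg_of_add_eq_zero_right hE0, map_add, map_mul, map_mul]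
        exact q.neg_mem (q.add_mem (q.mul_mem_right _ hπq) (q.mul_mem_right _ hπq))
      rw [hQ0] at h1
      simpa only [map_sum, map_mul, RingHom.comp_apply] using h1
    · intro j
      have h1 := hall (Sum.inr j)
      rw [grd, map_sum, Fintype.sum_sum_type] at h1
      have h2 : ∑ x : Fin d, pr (C (M (Sum.inl x) (Sum.inr j) + M (Sum.inr j) (Sum.inl x)) *
          tau s (Sum.inl x)) ∈ q := by
        refine q.sum_mem fun i _ => ?_
        simp only [M, add_zero, map_mul]
        exact q.mul_mem_right _ (q.mul_mem_right _ hπq)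
      have h3 := q.sub_mem h1 h2
      rw [add_sub_cancel_left] at h3
      simpa only [map_sum, map_mul, RingHom.comp_apply, M] using h3
  have hout2 : pr q1 ∉ q := by
    rcases hout with ⟨i, hi⟩ | h
    · exact absurd (hv i) hi
    · exact h
  rcases s with s' | s'
  swap
  · exfalso
    have h1 := hv s'
    have h2 : tau (R := R) (Sum.inr s' : Fin d ⊕ Fin m) (Sum.inr s') = 1 := by simp [tau]
    rw [h2, map_one] at h1
    exact (‹q.IsPrime›).ne_top ((Ideal.eq_top_iff_one q).2 h1)
  -- the case `s = inl s'`
  have hne : ∀ i : Fin m, (Sum.inr i : Fin d ⊕ Fin m) ≠ Sum.inl s' := fun i => by simp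
  let vr : Fin m → {j : Fin d ⊕ Fin m // j ≠ Sum.inl s'} := fun i => ⟨Sum.inr i, hne i⟩
  let T : Finset {j : Fin d ⊕ Fin m // j ≠ Sum.inl s'} := Finset.univ.image vr
  have hinj : Function.Injective vr := by
    intro i j h
    have := congrArg Subtype.val h
    simpa [vr] using this
  have hT : T.card = m := by
    rw [Finset.card_image_of_injective _ hinj, Finset.card_univ, Fintype.card_fin]
  have htau : ∀ i, tau (R := R) (Sum.inl s' : Fin d ⊕ Fin m) (Sum.inr i) = X (vr i) := by
    intro i
    simp [tau, vr]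
  let a : Finset (MvPolynomial {j : Fin d ⊕ Fin m // j ≠ Sum.inl s'} R) := T.image X
  have hacard : a.card ≤ m := Finset.card_image_le.trans hT.le
  have haq : ∀ x ∈ a, pr x ∈ q := by
    intro x hx
    simp only [a, T, Finset.mem_image, Finset.mem_univ, true_and] at hx
    obtain ⟨_, ⟨i, rfl⟩, rfl⟩ := hx
    rw [← htau]
    exact hv i
  have haspan : ∀ i, pr (X (vr i)) ∈ Ideal.span (pr '' (a : Set _)) := by
    intro i
    refine Ideal.subset_span ⟨X (vr i), ?_, rfl⟩
    simp only [a, T, Finset.coe_image, Set.mem_image]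
    exact ⟨vr i, ⟨i, by simp, rfl⟩, rfl⟩
  have hC : IsRegularRing (MvPolynomial {j : {j : Fin d ⊕ Fin m // j ≠ Sum.inl s'} // j ∉ T}
    (IsLocalRing.ResidueField R)) := inferInstance
  have hker := ker_theta_le (R := R) T π hπ
  refine reg_crit (C := MvPolynomial {j : {j : Fin d ⊕ Fin m // j ≠ Sum.inl s'} // j ∉ T}
    (IsLocalRing.ResidueField R)) pr hpr {quad (Sum.inl s') M} (by simpa using hE) q
    (theta R T) (theta_surj T) ?_ a haq ?_ ?_
  · refine hker.trans (Ideal.span_le.2 ?_)
    intro x hx
    rcases hx with rfl | ⟨j, hj, rfl⟩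
    · exact hπq
    · simp only [T, Finset.coe_image, Set.mem_image] at hj
      obtain ⟨i, -, rfl⟩ := hj
      show pr (X (vr i)) ∈ q
      rw [← htau]
      exact hv i
  · intro x hx
    refine ⟨q1 + b2, ?_, ?_⟩
    · intro h
      apply hout2
      have h2 : pr b2 ∈ q := by
        rw [hb2, map_sum]
        refine q.sum_mem fun i _ => ?_
        rw [map_sum]
        refine q.sum_mem fun j _ => ?_
        rw [map_mul]
        exact q.mul_mem_left _ (hv j)
      rw [map_add] at h
      have := q.sub_mem h h2
      simpa using this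
    · have hx2 := hker hx
      have hQ0s : pr Q0 ∈ Ideal.span (pr '' (a : Set _)) := by
        rw [hQ0, map_sum]
        refine Ideal.sum_mem _ fun i _ => ?_
        rw [map_sum]
        refine Ideal.sum_mem _ fun j _ => ?_
        rw [map_mul, htau j]
        exact Ideal.mul_mem_left _ _ (haspan j)
      refine Submodule.span_induction ?_ ?_ ?_ ?_ hx2
      · rintro y (rfl | ⟨j, hj, rfl⟩)
        · have h1 : (q1 + b2) * C π = (C π * q1 + C π * b2 + Q0) - Q0 := by ring
          rw [h1, map_sub, hE0, zero_sub]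
          exact Submodule.neg_mem _ hQ0s
        · simp only [T, Finset.coe_image, Set.mem_image] at hj
          obtain ⟨i, -, rfl⟩ := hj
          rw [map_mul]
          exact Ideal.mul_mem_left _ _ (haspan i)
      · rw [mul_zero, map_zero]; exact Submodule.zero_mem _
      · intro x y _ _ hx hy
        rw [mul_add, map_add]
        exact Submodule.add_mem _ hx hy
      · intro r x _ hx
        rw [smul_eq_mul, mul_left_comm, map_mul]
        exact Ideal.mul_mem_left _ _ hx
  · have := le_height_ker_theta (R := R) T π hπ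
    refine le_trans ?_ this
    rw [hT]
    exact_mod_cast Nat.add_le_add_right hacard _

end Pool.Agent.H825R2.QuadF
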